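import Pool.Agent.U685.IN.Stm

/-!
# Project IX, package FAR: passage times to far points are at least linear
-/

set_option autoImplicit false
open MeasureTheory ProbabilityTheory Filter Set
open scoped ENNReal Topology Pointwise

namespace Pool.Agent.U141.IX

open Pool.Agent.N662.FP
open Pool.Agent.U874.FP
open Pool.Agent.U685.IN

lemma coord_bound {p : ℕ → ℤ × ℤ} {n : ℕ} (h0 : p 0 = 0)
    (hs : ∀ i < n, |(p (i + 1)).1 - (p i).1| + |(p (i + 1)).2 - (p i).2| = 1) :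
    ∀ i ≤ n, |(p i).1| ≤ (i : ℤ) ∧ |(p i).2| ≤ (i : ℤ) := by
  intro i
  induction i with
  | zero => intro _; rw [h0]; simp
  | succ i ih =>
    intro hi
    obtain ⟨h1, h2⟩ := ih (by omega)
    have h3 := hs i (by omega)
    have h4 := abs_nonneg ((p (i + 1)).1 - (p i).1)
    have h5 := abs_nonneg ((p (i + 1)).2 - (p i).2)
    have h6 := abs_add_le ((p (i + 1)).1 - (p i).1) (p i).1
    have h7 := abs_add_le ((p (i + 1)).2 - (p i).2) (p i).2
    rw [sub_add_cancel] at h6 h7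
    push_cast
    constructor <;> linarith

lemma fast_of_far {x : Sym2 (ℤ × ℤ) → ℝ} (hx : ∀ e, 0 ≤ x e) {R : ℝ} {z : ℤ × ℤ}
    (hz : ¬ Bx R z) (hD : D x 0 z ≤ R / 25) : ∃ n : ℕ, R < n ∧ Fast x n := by
  obtain ⟨g1, -, -, -⟩ := cGE x hx 0 z
  have hM : R < max |(z.1 : ℝ)| |(z.2 : ℝ)| := by
    unfold Bx at hz
    rw [not_and_or, not_le, not_le] at hz
    exact lt_max_iff.2 hz
  have hlt : sInf (PS x 0 z) < max |(z.1 : ℝ)| |(z.2 : ℝ)| / 25 := by
    have : sInf (PS x 0 z) ≤ R / 25 := hD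
    linarith
  obtain ⟨s, hs, hsM⟩ := exists_lt_of_csInf_lt g1 hlt
  obtain ⟨n, p, hp0, hpn, hstep, hinj, hle⟩ := cSAW x hx 0 _ s hs
  obtain ⟨e1, e2⟩ := coord_bound hp0 hstep n le_rfl
  rw [hpn] at e1 e2
  have e1' : |(z.1 : ℝ)| ≤ n := by exact_mod_cast e1
  have e2' : |(z.2 : ℝ)| ≤ n := by exact_mod_cast e2
  have hMn : max |(z.1 : ℝ)| |(z.2 : ℝ)| ≤ n := max_le e1' e2'
  refine ⟨n, lt_of_lt_of_le hM hMn, p, hp0, hstep, hinj, ?_⟩
  linarith

theorem t_FAR : Pool.Agent.U685.IN.S_FAR := by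
  intro Ω _ _ X hX η hη
  have hbound : ∀ R : ℝ, 0 ≤ R →
      (volume : Measure Ω).real {ω | ¬ ∀ z : V, ¬ Bx R z → R / 25 < D (env X ω) 0 z} ≤
        (1 / 2 : ℝ) ^ ⌊R⌋₊ * 2 := by
    intro R hR
    have h1 : (volume : Measure Ω) {ω | ¬ ∀ z : V, ¬ Bx R z → R / 25 < D (env X ω) 0 z} ≤
        (volume : Measure Ω) (⋃ k : ℕ, {ω | Fast (env X ω) (⌊R⌋₊ + k)}) := by
      refine measure_mono_ae ?_
      filter_upwards [cAE Ω X hX] with ω hω
      intro hmem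
      have hmem' : ¬ ∀ z : V, ¬ Bx R z → R / 25 < D (env X ω) 0 z := hmem
      push Not at hmem'
      obtain ⟨z, hz, hD⟩ := hmem'
      obtain ⟨n, hn, hF⟩ := fast_of_far hω hz hD
      have hfl : ⌊R⌋₊ ≤ n := by
        have := Nat.floor_le hR
        have h2 : ((⌊R⌋₊ : ℕ) : ℝ) ≤ n := by linarith
        exact_mod_cast h2
      refine mem_iUnion.2 ⟨n - ⌊R⌋₊, ?_⟩
      change Fast (env X ω) (⌊R⌋₊ + (n - ⌊R⌋₊))
      rwa [Nat.add_sub_cancel' hfl]
    have h2 : (volume : Measure Ω) (⋃ k : ℕ, {ω | Fast (env X ω) (⌊R⌋₊ + k)}) ≤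
        (1 / 2 : ℝ≥0∞) ^ ⌊R⌋₊ * 2 := by
      refine (measure_iUnion_le _).trans ?_
      refine (ENNReal.tsum_le_tsum fun k =>
        Pool.Agent.N896.FM.t_CNT Ω X hX (⌊R⌋₊ + k)).trans ?_
      simp_rw [pow_add]
      rw [ENNReal.tsum_mul_left, one_div, ENNReal.tsum_geometric_two]
    have h3 := h1.trans h2
    have h4 : ((1 / 2 : ℝ≥0∞) ^ ⌊R⌋₊ * 2) ≠ ∞ := by
      refine ENNReal.mul_ne_top (ENNReal.pow_ne_top ?_) ENNReal.ofNat_ne_top
      rw [one_div]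
      exact ENNReal.inv_ne_top.2 two_ne_zero
    have h5 := ENNReal.toReal_mono h4 h3
    refine h5.trans (le_of_eq ?_)
    rw [ENNReal.toReal_mul, ENNReal.toReal_pow]
    simp
  have hlim : Tendsto (fun R : ℝ => (1 / 2 : ℝ) ^ ⌊R⌋₊ * 2) atTop (𝓝 (0 * 2)) := by
    refine Tendsto.mul_const 2 ?_
    exact (tendsto_pow_atTop_nhds_zero_of_lt_one (by norm_num) (by norm_num)).comp
      tendsto_nat_floor_atTop
  rw [zero_mul] at hlim
  filter_upwards [hlim.eventually (gt_mem_nhds hη), eventually_ge_atTop 0] with R h1 h2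
  exact (hbound R h2).trans h1.le

end Pool.Agent.U141.IX
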